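import Pool.Agent.H14R2.RC.Defs

namespace RC14
open scoped InnerProductSpace
open Finset

/-- `A_n` is transitive on `r`-tuples of distinct points, `r + 2 ≤ n` -/
theorem TRANS {r n : ℕ} (h : r + 2 ≤ n) (a b : Tup r n) :
    ∃ g : Alt n, mv (g : Equiv.Perm (Fin n)) a = b := by
  have : MulAction.IsMultiplyPretransitive (alternatingGroup (Fin n)) (Fin n)
      (Nat.card (Fin n) - 2) := alternatingGroup.isMultiplyPretransitive (Fin n)
  have : MulAction.IsMultiplyPretransitive (alternatingGroup (Fin n)) (Fin n) r := by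
    refine MulAction.isMultiplyPretransitive_of_le (n := Nat.card (Fin n) - 2) ?_ ?_
    · rw [Nat.card_fin]; omega
    · rw [Nat.card_fin]; simp
  obtain ⟨g, hg⟩ := MulAction.exists_smul_eq (alternatingGroup (Fin n)) a b
  refine ⟨g, ?_⟩
  rw [← hg]
  ext l
  rfl

/-- the fibres of `g ↦ g⁻¹ κ` all have the same size -/
theorem TRANS_card {r n : ℕ} (h : r + 2 ≤ n) (κ a : Tup r n) :
    Fintype.card {g : Alt n // mv (g : Equiv.Perm (Fin n))⁻¹ κ = a} * Fintype.card (Tup r n) =
      Fintype.card (Alt n) := by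
  have h1 : ∀ b : Tup r n, Fintype.card {g : Alt n // mv (g : Equiv.Perm (Fin n))⁻¹ κ = b} =
      Fintype.card {g : Alt n // mv (g : Equiv.Perm (Fin n))⁻¹ κ = a} := by
    intro b
    obtain ⟨x, hx⟩ := TRANS h b a
    -- `x b = a`
    refine Fintype.card_congr ⟨fun g => ⟨g.1 * x⁻¹, ?_⟩, fun g => ⟨g.1 * x, ?_⟩, ?_, ?_⟩
    · rw [Subgroup.coe_mul, mul_inv_rev, mv_mul, g.2]
      simpa using hx
    · rw [Subgroup.coe_mul, mul_inv_rev, mv_mul, g.2, ← hx, ← mv_mul]
      simp
    · intro g; ext1; simp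
    · intro g; ext1; simp
  have h2 : Fintype.card (Alt n) =
      ∑ b : Tup r n, Fintype.card {g : Alt n // mv (g : Equiv.Perm (Fin n))⁻¹ κ = b} := by
    rw [← Fintype.card_sigma]
    exact Fintype.card_congr (Equiv.sigmaFiberEquiv fun g : Alt n =>
      mv (g : Equiv.Perm (Fin n))⁻¹ κ).symm
  rw [h2]
  simp only [h1]
  rw [Finset.sum_const, Finset.card_univ, smul_eq_mul, mul_comm]

end RC14
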