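import Pool.Agent.H14R2.RC.Defs

namespace RC14
open scoped InnerProductSpace
open Finset

namespace NOINVaux

/-- left translates preserve the vanishing of marginals -/
theorem left_sum {m n : ℕ} {w : FA n} (hw : w ∈ HH m n) {j : ℕ} (hj : j ≤ m) (κ a : Tup j n)
    (h : Alt n) : ∑ g : Alt n, (if mv (g : Equiv.Perm (Fin n))⁻¹ κ = a then w (h * g) else 0) = 0 := by
  have h1 : (∑ x : Alt n, if mv (x : Equiv.Perm (Fin n))⁻¹ (mv (h : Equiv.Perm (Fin n)) κ) = a
      then w x else 0) = 0 :=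
    congrArg (fun f : V j n => f a) (hw j hj (mv (h : Equiv.Perm (Fin n)) κ))
  rw [← Equiv.sum_comp (Equiv.mulLeft h)] at h1
  refine Eq.trans (Finset.sum_congr rfl fun g _ => ?_) h1
  simp only [Equiv.coe_mulLeft, Subgroup.coe_mul, mul_inv_rev]
  rw [mv_mul, ← mv_mul (h : Equiv.Perm (Fin n))⁻¹ (h : Equiv.Perm (Fin n)) κ, inv_mul_cancel,
    mv_one]

end NOINVaux

/-- a function with vanishing marginals of order `≤ m` which is invariant under right
multiplication by the pointwise stabiliser of a set of at most `m` points is zero -/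
theorem NOINV (n m : ℕ) (w : FA n) (hw : w ∈ HH m n) (K : Finset (Fin n)) (hK : K.card ≤ m)
    (h : ∀ s : Alt n, (∀ a ∈ K, (s : Equiv.Perm (Fin n)) a = a) → RR n s w = w) : w = 0 := by
  -- the correlation function
  let c : Alt n → ℂ := fun g => ∑ x : Alt n, (starRingEnd ℂ) (w x) * w (x * g)
  let κ : Tup K.card n := ⟨K.orderEmbOfFin rfl, (K.orderEmbOfFin rfl).injective⟩
  have hκ : ∀ a ∈ K, ∃ l, κ l = a := by
    intro a ha
    have : a ∈ Set.range (K.orderEmbOfFin rfl) := by rw [Finset.range_orderEmbOfFin]; exact ha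
    obtain ⟨l, hl⟩ := this
    exact ⟨l, hl⟩
  have hw' : ∀ s : Alt n, (∀ a ∈ K, (s : Equiv.Perm (Fin n)) a = a) → ∀ x, w (x * s) = w x := by
    intro s hs x
    rw [← RR_apply, h s hs]
  -- left invariance
  have hleft : ∀ s : Alt n, (∀ a ∈ K, (s : Equiv.Perm (Fin n)) a = a) → ∀ g, c (s * g) = c g := by
    intro s hs g
    show ∑ x : Alt n, (starRingEnd ℂ) (w x) * w (x * (s * g)) =
      ∑ x : Alt n, (starRingEnd ℂ) (w x) * w (x * g)
    rw [← Equiv.sum_comp (Equiv.mulRight s) (fun x => (starRingEnd ℂ) (w x) * w (x * g))]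
    refine Finset.sum_congr rfl fun x _ => ?_
    simp only [Equiv.coe_mulRight]
    rw [hw' s hs x, mul_assoc]
  have hdep : ∀ g g' : Alt n, mv (g : Equiv.Perm (Fin n))⁻¹ κ = mv (g' : Equiv.Perm (Fin n))⁻¹ κ →
      c g = c g' := by
    intro g g' hg
    have h1 : g = (g * g'⁻¹) * g' := by group
    rw [h1]
    refine hleft _ ?_ g'
    intro a ha
    obtain ⟨l, rfl⟩ := hκ a ha
    have h2 := congrArg (fun t : Tup K.card n => t l) hg
    simp only [mv_apply] at h2
    rw [Subgroup.coe_mul, Subgroup.coe_inv, Equiv.Perm.mul_apply, ← h2]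
    simp
  have hsum : ∀ a : Tup K.card n,
      ∑ g : Alt n, (if mv (g : Equiv.Perm (Fin n))⁻¹ κ = a then c g else 0) = 0 := by
    intro a
    have h1 : ∀ g : Alt n, (if mv (g : Equiv.Perm (Fin n))⁻¹ κ = a then c g else 0) =
        ∑ x : Alt n, (starRingEnd ℂ) (w x) *
          (if mv (g : Equiv.Perm (Fin n))⁻¹ κ = a then w (x * g) else 0) := by
      intro g
      split_ifs
      · rfl
      · simp
    simp only [h1]
    rw [Finset.sum_comm]
    refine Finset.sum_eq_zero fun x _ => ?_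
    rw [← Finset.mul_sum, NOINVaux.left_sum hw hK κ a x, mul_zero]
  have hc1 : c 1 = 0 := by
    have h1 := hsum κ
    have h2 : ∀ g : Alt n, (if mv (g : Equiv.Perm (Fin n))⁻¹ κ = κ then c g else 0) =
        if mv (g : Equiv.Perm (Fin n))⁻¹ κ = κ then c 1 else 0 := by
      intro g
      split_ifs with h3
      · refine hdep g 1 ?_
        rw [h3]; simp
      · rfl
    simp only [h2] at h1
    rw [← Finset.sum_filter, Finset.sum_const, nsmul_eq_mul] at h1
    rcases mul_eq_zero.1 h1 with h3 | h3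
    · exfalso
      have h4 : (1 : Alt n) ∈ ({g : Alt n | mv (g : Equiv.Perm (Fin n))⁻¹ κ = κ} : Finset (Alt n)) := by
        simp
      have h5 := Nat.cast_eq_zero.1 h3
      rw [Finset.card_eq_zero] at h5
      rw [h5] at h4
      simp at h4
    · exact h3
  have hn : ‖w‖ ^ 2 = 0 := by
    have h1 : ((‖w‖ ^ 2 : ℝ) : ℂ) = c 1 := by
      rw [EuclideanSpace.norm_sq_eq]
      push_cast
      show _ = ∑ x : Alt n, (starRingEnd ℂ) (w x) * w (x * 1)
      refine Finset.sum_congr rfl fun x _ => ?_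
      rw [mul_one, ← Complex.normSq_eq_conj_mul_self, Complex.normSq_eq_norm_sq]
      push_cast
      rfl
    rw [hc1] at h1
    exact_mod_cast h1
  exact norm_eq_zero.1 (pow_eq_zero_iff (two_ne_zero) |>.1 hn)

end RC14
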