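import Pool.Agent.H14R2.RC.Defs

namespace RC14
open scoped InnerProductSpace
open Finset

namespace EMBaux

/-- the marginal as a linear map -/
noncomputable def margL {j n : ℕ} (κ : Tup j n) : FA n →ₗ[ℂ] V j n where
  toFun := marg κ
  map_add' f g := by
    ext a
    simp only [marg, PiLp.add_apply]
    rw [← Finset.sum_add_distrib]
    refine Finset.sum_congr rfl fun y _ => ?_
    split_ifs <;> simp
  map_smul' c f := by
    ext a
    simp only [marg, PiLp.smul_apply, smul_eq_mul, Finset.mul_sum, RingHom.id_apply]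
    refine Finset.sum_congr rfl fun y _ => ?_
    split_ifs <;> simp

@[simp] theorem margL_apply {j n : ℕ} (κ : Tup j n) (f : FA n) : margL κ f = marg κ f := rfl

theorem marg_apply {j n : ℕ} (κ : Tup j n) (f : FA n) (a : Tup j n) :
    marg κ f a = ∑ g : Alt n, if mv (g : Equiv.Perm (Fin n))⁻¹ κ = a then f g else 0 := rfl

theorem marg_equi {j n : ℕ} (κ : Tup j n) (f : FA n) (g : Alt n) :
    marg κ (RR n g f) = repA j n g (marg κ f) := by
  ext a
  rw [repA_apply, marg_apply, marg_apply, ← Equiv.sum_comp (Equiv.mulRight g)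
    (fun h : Alt n => if mv (h : Equiv.Perm (Fin n))⁻¹ κ = mv (g : Equiv.Perm (Fin n))⁻¹ a
      then f h else 0)]
  refine Finset.sum_congr rfl fun h _ => ?_
  rw [RR_apply]
  simp only [Equiv.coe_mulRight, Subgroup.coe_mul, mul_inv_rev]
  have h1 : mv ((g : Equiv.Perm (Fin n))⁻¹ * (h : Equiv.Perm (Fin n))⁻¹) κ =
      mv (g : Equiv.Perm (Fin n))⁻¹ a ↔ mv (h : Equiv.Perm (Fin n))⁻¹ κ = a := by
    rw [mv_mul]
    constructor
    · intro h2
      have h3 := congrArg (mv (g : Equiv.Perm (Fin n))) h2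
      rw [← mv_mul, ← mv_mul (g : Equiv.Perm (Fin n))] at h3
      simpa using h3
    · intro h2; rw [h2]
  simp only [h1]

theorem ext0_marg {j n : ℕ} (κ : Tup j n) (f : FA n) (ψ : Fin j → Fin n) :
    ext0 (marg κ f) ψ =
      ∑ g : Alt n, if (⇑(mv (g : Equiv.Perm (Fin n))⁻¹ κ) : Fin j → Fin n) = ψ then f g else 0 := by
  unfold ext0
  split_ifs with h
  · rw [marg_apply]
    refine Finset.sum_congr rfl fun g _ => ?_
    have h1 : mv (g : Equiv.Perm (Fin n))⁻¹ κ = (⟨ψ, h⟩ : Tup j n) ↔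
        (⇑(mv (g : Equiv.Perm (Fin n))⁻¹ κ) : Fin j → Fin n) = ψ := by
      rw [DFunLike.ext'_iff]; rfl
    simp only [h1]
  · symm
    refine Finset.sum_eq_zero fun g _ => ?_
    rw [if_neg]
    intro h1
    exact h (h1 ▸ (mv (g : Equiv.Perm (Fin n))⁻¹ κ).injective)

theorem marg_mem_Lvl {j n : ℕ} (κ : Tup j n) (f : FA n)
    (h : ∀ j' < j, ∀ κ' : Tup j' n, marg κ' f = 0) : marg κ f ∈ Lvl j n := by
  rw [mem_Lvl]
  intro φ l
  cases j with
  | zero => exact l.elim0
  | succ k =>
    simp only [ext0_marg]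
    rw [Finset.sum_comm]
    have h1 : ∀ g : Alt n, (∑ y : Fin n,
        if (⇑(mv (g : Equiv.Perm (Fin n))⁻¹ κ) : Fin (k + 1) → Fin n) = Function.update φ l y
          then f g else 0) =
        if (⇑(mv (g : Equiv.Perm (Fin n))⁻¹ (l.succAboveEmb.trans κ)) : Fin k → Fin n) =
          φ ∘ l.succAbove then f g else 0 := by
      intro g
      have h2 : ∀ y : Fin n,
          ((⇑(mv (g : Equiv.Perm (Fin n))⁻¹ κ) : Fin (k + 1) → Fin n) = Function.update φ l y) ↔
          (y = mv (g : Equiv.Perm (Fin n))⁻¹ κ l ∧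
            (⇑(mv (g : Equiv.Perm (Fin n))⁻¹ (l.succAboveEmb.trans κ)) : Fin k → Fin n) =
              φ ∘ l.succAbove) := by
        intro y
        constructor
        · intro h3
          refine ⟨?_, ?_⟩
          · rw [h3]; simp
          · funext i
            have h4 := congrFun h3 (l.succAbove i)
            rw [Function.update_of_ne (Fin.succAbove_ne l i)] at h4
            exact h4
        · rintro ⟨h3, h4⟩
          funext i
          by_cases hi : i = l
          · subst hi; simp [h3]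
          · rw [Function.update_of_ne hi]
            obtain ⟨i', rfl⟩ := Fin.exists_succAbove_eq hi
            exact congrFun h4 i'
      simp only [h2]
      by_cases h5 : (⇑(mv (g : Equiv.Perm (Fin n))⁻¹ (l.succAboveEmb.trans κ)) : Fin k → Fin n) =
          φ ∘ l.succAbove
      · simp [h5]
      · simp [h5]
    simp only [h1]
    rw [← ext0_marg, h k (Nat.lt_succ_self k)]
    simp [ext0]

end EMBaux

open EMBaux in
/-- an irreducible space of functions on `A_n` with vanishing marginals of order `≤ m`, but not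
`≤ M`, has the character of an irreducible subspace of some `Lvl j n`, `m < j ≤ M` -/
theorem EMB (n m M : ℕ) (W : Submodule ℂ (FA n)) (hW : Irr (RR n) W) (h1 : W ≤ HH m n)
    (h2 : ¬ W ≤ HH M n) :
    ∃ j, m < j ∧ j ≤ M ∧ ∃ (U : Submodule ℂ (V j n)) (hU : Irr (repA j n) U), U ≤ Lvl j n ∧
      Module.finrank ℂ U = Module.finrank ℂ W ∧
      ∀ g, rchr (RR n) W hW.2.1 g = rchr (repA j n) U hU.2.1 g := by
  classical
  have hex : ∃ j, ∃ κ : Tup j n, ∃ f ∈ W, marg κ f ≠ 0 := by
    by_contra hcon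
    push Not at hcon
    exact h2 fun f hf j _ κ => hcon j κ f hf
  obtain ⟨j, ⟨κ, f0, hf0, hne⟩, hmin0⟩ : ∃ j, (∃ κ : Tup j n, ∃ f ∈ W, marg κ f ≠ 0) ∧
      ∀ j' < j, ¬ ∃ κ : Tup j' n, ∃ f ∈ W, marg κ f ≠ 0 :=
    ⟨Nat.find hex, Nat.find_spec hex, fun j' h => Nat.find_min hex h⟩
  have hmin : ∀ j' < j, ∀ (κ' : Tup j' n), ∀ f ∈ W, marg κ' f = 0 := by
    intro j' hj' κ' f hf
    by_contra hcon
    exact hmin0 j' hj' ⟨κ', f, hf, hcon⟩
  have hjm : m < j := by
    by_contra hcon
    exact hne (h1 hf0 j (not_lt.1 hcon) κ)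
  have hjM : j ≤ M := by
    by_contra hcon
    exact h2 fun f hf j' hj' κ' => hmin j' (by omega) κ' f hf
  have hinvK : Inv (RR n) (W ⊓ LinearMap.ker (margL κ)) := by
    intro g v hv
    refine ⟨hW.2.1 g v hv.1, ?_⟩
    have h3 : marg κ v = 0 := hv.2
    rw [SetLike.mem_coe, LinearMap.mem_ker, margL_apply, marg_equi, h3, map_zero]
  have hker : W ⊓ LinearMap.ker (margL κ) = ⊥ := by
    rcases hW.2.2 _ inf_le_left hinvK with h3 | h3
    · exact h3
    · exfalso
      have h4 : f0 ∈ W ⊓ LinearMap.ker (margL κ) := by rw [h3]; exact hf0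
      exact hne h4.2
  have hinj : Function.Injective ((margL κ).domRestrict W) := by
    rw [← LinearMap.ker_eq_bot, LinearMap.ker_eq_bot']
    intro w hw
    have h3 : (w : FA n) ∈ W ⊓ LinearMap.ker (margL κ) := ⟨w.2, hw⟩
    rw [hker] at h3
    exact Subtype.ext ((Submodule.mem_bot ℂ).1 h3)
  have hU : Irr (repA j n) (W.map (margL κ)) := by
    refine ⟨?_, ?_, ?_⟩
    · intro h3
      have h4 : margL κ f0 ∈ W.map (margL κ) := Submodule.mem_map_of_mem hf0
      rw [h3] at h4
      exact hne ((Submodule.mem_bot ℂ).1 h4)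
    · rintro g _ ⟨v, hv, rfl⟩
      refine ⟨RR n g v, hW.2.1 g v hv, ?_⟩
      rw [margL_apply, margL_apply, marg_equi]
    · intro U' hU' hinv
      have h3 : Inv (RR n) (W ⊓ U'.comap (margL κ)) := by
        intro g v hv
        refine ⟨hW.2.1 g v hv.1, ?_⟩
        rw [SetLike.mem_coe, Submodule.mem_comap, margL_apply, marg_equi]
        exact hinv g _ hv.2
      rcases hW.2.2 _ inf_le_left h3 with h4 | h4
      · left
        rw [Submodule.eq_bot_iff]
        intro u hu
        obtain ⟨v, hv, rfl⟩ := hU' hu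
        have h5 : v ∈ W ⊓ U'.comap (margL κ) := ⟨hv, hu⟩
        rw [h4, Submodule.mem_bot] at h5
        rw [h5, map_zero]
      · right
        refine le_antisymm hU' ?_
        rintro _ ⟨v, hv, rfl⟩
        rw [SetLike.mem_coe, ← h4] at hv
        exact hv.2
  refine ⟨j, hjm, hjM, W.map (margL κ), hU, ?_, ?_⟩
  · rintro _ ⟨v, hv, rfl⟩
    exact marg_mem_Lvl κ v fun j' hj' κ' => hmin j' hj' κ' v hv
  · let e : W ≃ₗ[ℂ] (W.map (margL κ)) :=
      (LinearEquiv.ofInjective ((margL κ).domRestrict W) hinj).trans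
        (LinearEquiv.ofEq _ _ (by rw [LinearMap.range_domRestrict]))
    have he : ∀ w : W, ((e w : W.map (margL κ)) : V j n) = marg κ w := fun w => rfl
    refine ⟨e.finrank_eq.symm, fun g => ?_⟩
    unfold rchr chr
    rw [← LinearMap.trace_conj' _ e]
    congr 1
    apply LinearMap.ext
    intro u
    rw [LinearEquiv.conj_apply_apply]
    apply Subtype.ext
    rw [he, op_apply, op_apply, res_apply, res_apply, marg_equi, ← he, e.apply_symm_apply]

end RC14
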