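import Pool.Agent.H14R2.RC.Defs

namespace RC14
open scoped InnerProductSpace
open Finset

variable {V : Type*} [NormedAddCommGroup V] [InnerProductSpace ℂ V] [FiniteDimensional ℂ V]

namespace HIGHCaux

theorem perm_trans {k n : ℕ} (s s' : Tup k n) : ∃ g : Equiv.Perm (Fin n), mv g s = s' := by
  have : MulAction.IsMultiplyPretransitive (Equiv.Perm (Fin n)) (Fin n) k :=
    Equiv.Perm.isMultiplyPretransitive (Fin n) k
  obtain ⟨g, hg⟩ := MulAction.exists_smul_eq (Equiv.Perm (Fin n)) s s'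
  refine ⟨g, ?_⟩
  rw [← hg]
  ext l
  rfl

theorem card_fib {k m n : ℕ} (e : Fin k ↪ Fin m) (s s' : Tup k n) :
    #{t : Tup m n | e.trans t = s} = #{t : Tup m n | e.trans t = s'} := by
  obtain ⟨g, hg⟩ := perm_trans s s'
  refine Finset.card_equiv (mvE g) fun t => ?_
  simp only [Finset.mem_filter, Finset.mem_univ, true_and]
  have h1 : e.trans (mvE g t) = mv g (e.trans t) := by ext l; rfl
  rw [h1, ← hg]
  constructor
  · intro h; rw [h]
  · intro h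
    have h2 := congrArg (mv g⁻¹) h
    rw [← mv_mul, ← mv_mul] at h2
    simpa using h2

theorem avg {k m n : ℕ} (e : Fin k ↪ Fin m) (hm : m ≤ n) (G : Tup k n → ℝ) :
    (∑ t : Tup m n, G (e.trans t)) / Fintype.card (Tup m n) =
      (∑ s : Tup k n, G s) / Fintype.card (Tup k n) := by
  have hne : Nonempty (Tup m n) := ⟨Fin.castLEEmb hm⟩
  obtain ⟨t0⟩ := hne
  have h1 : ∀ s : Tup k n, #{t : Tup m n | e.trans t = s} =
      #{t : Tup m n | e.trans t = e.trans t0} := fun s => card_fib e _ _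
  have h2 : ∀ G : Tup k n → ℝ, ∑ t : Tup m n, G (e.trans t) =
      (#{t : Tup m n | e.trans t = e.trans t0} : ℝ) * ∑ s : Tup k n, G s := by
    intro G
    rw [← Finset.sum_fiberwise (s := (Finset.univ : Finset (Tup m n))) (g := fun t => e.trans t),
      Finset.mul_sum]
    refine Finset.sum_congr rfl fun s _ => ?_
    rw [← h1 s, ← nsmul_eq_mul, ← Finset.sum_const]
    refine Finset.sum_congr rfl fun t ht => ?_
    rw [(Finset.mem_filter.1 ht).2]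
  have h3 := h2 fun _ => 1
  simp only [Finset.sum_const, Finset.card_univ, nsmul_eq_mul, mul_one] at h3
  have h4 : (#{t : Tup m n | e.trans t = e.trans t0} : ℝ) ≠ 0 := by
    rw [Nat.cast_ne_zero]
    exact (Finset.card_pos.2 ⟨t0, by simp⟩).ne'
  rw [h2, h3, mul_div_mul_left _ _ h4]

/-- identity of three-cycles -/
theorem swap_id {α : Type*} [DecidableEq α] {a b c d : α} (hab : a ≠ b) (hac : a ≠ c)
    (had : a ≠ d) (hbc : b ≠ c) (hbd : b ≠ d) (hcd : c ≠ d) :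
    Equiv.swap a d * Equiv.swap d c * (Equiv.swap a b * Equiv.swap b d) =
      Equiv.swap a b * Equiv.swap b c := by
  ext x
  simp only [Equiv.Perm.mul_apply, Equiv.swap_apply_def]
  split_ifs <;> simp_all

/-- the embeddings of the positions -/
def e3 : Fin 3 ↪ Fin 7 := ⟨![0, 3, 2], by decide⟩
/-- the embeddings of the positions -/
def e6 : Fin 6 ↪ Fin 7 := ⟨![0, 1, 2, 4, 5, 6], by decide⟩
/-- the embeddings of the positions -/
def e6' : Fin 6 ↪ Fin 7 := ⟨![0, 1, 3, 4, 5, 6], by decide⟩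

theorem cyc_id {n : ℕ} (t : Tup 7 n) :
    c3 (e3.trans t) = c33 (e6.trans t) * (c33 (e6'.trans t))⁻¹ := by
  have ht : ∀ i j : Fin 7, i ≠ j → t i ≠ t j := fun i j h => t.injective.ne h
  have h1 : c33 (e6.trans t) = c3 ((Fin.castLEEmb (by omega : 3 ≤ 6)).trans (e6.trans t)) *
      c3 ((Fin.natAddEmb 3).trans (e6.trans t)) := rfl
  have h2 : c33 (e6'.trans t) = c3 ((Fin.castLEEmb (by omega : 3 ≤ 6)).trans (e6'.trans t)) *
      c3 ((Fin.natAddEmb 3).trans (e6'.trans t)) := rfl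
  have h3 : c3 ((Fin.natAddEmb 3).trans (e6.trans t)) =
      c3 ((Fin.natAddEmb 3).trans (e6'.trans t)) := by
    congr 1
    ext l
    fin_cases l <;> rfl
  rw [eq_mul_inv_iff_mul_eq, h1, h2, h3, ← mul_assoc]
  congr 1
  apply Subtype.ext
  rw [Subgroup.coe_mul]
  exact swap_id (ht 0 1 (by decide)) (ht 0 2 (by decide)) (ht 0 3 (by decide))
    (ht 1 2 (by decide)) (ht 1 3 (by decide)) (ht 2 3 (by decide))

omit [FiniteDimensional ℂ V] in
theorem energy {G : Type*} [Group G] (ρ : G →* (V ≃ₗᵢ[ℂ] V)) (u w : G) (v : V) :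
    ‖ρ (u * w⁻¹) v - v‖ ^ 2 ≤ 2 * (‖ρ u v - v‖ ^ 2 + ‖ρ w v - v‖ ^ 2) := by
  have h1 : ‖ρ (u * w⁻¹) v - v‖ ≤ ‖ρ u v - v‖ + ‖ρ w v - v‖ := by
    have h2 : ρ (u * w⁻¹) v - v = ρ u (ρ w⁻¹ v - v) + (ρ u v - v) := by
      have h0 : ρ (u * w⁻¹) v = ρ u (ρ w⁻¹ v) := by rw [map_mul]; rfl
      rw [h0, map_sub]
      abel
    have h3 : ‖ρ u (ρ w⁻¹ v - v)‖ = ‖ρ w v - v‖ := by
      rw [(ρ u).norm_map, ← (ρ w).norm_map, map_sub]
      have h4 : ρ w (ρ w⁻¹ v) = v := by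
        rw [map_inv]
        exact (ρ w).apply_symm_apply v
      rw [h4, norm_sub_rev]
    rw [h2]
    refine (norm_add_le _ _).trans ?_
    rw [h3]
    linarith
  have h2 : 0 ≤ ‖ρ (u * w⁻¹) v - v‖ := norm_nonneg _
  nlinarith [sq_nonneg (‖ρ u v - v‖ - ‖ρ w v - v‖)]

end HIGHCaux

open HIGHCaux in
/-- HIGH c -/
theorem HIGHC (n : ℕ) (hn : 7 ≤ n) (ρ : Alt n →* (V ≃ₗᵢ[ℂ] V)) (v : V) :
    (∑ s : Tup 3 n, ‖ρ (c3 s) v - v‖ ^ 2) / Fintype.card (Tup 3 n) ≤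
      4 * ((∑ s : Tup 6 n, ‖ρ (c33 s) v - v‖ ^ 2) / Fintype.card (Tup 6 n)) := by
  rw [← avg e3 hn (fun s => ‖ρ (c3 s) v - v‖ ^ 2)]
  have h1 := avg e6 hn (fun s : Tup 6 n => ‖ρ (c33 s) v - v‖ ^ 2)
  have h2 := avg e6' hn (fun s : Tup 6 n => ‖ρ (c33 s) v - v‖ ^ 2)
  have h3 : ∑ t : Tup 7 n, ‖ρ (c3 (e3.trans t)) v - v‖ ^ 2 ≤
      2 * (∑ t : Tup 7 n, ‖ρ (c33 (e6.trans t)) v - v‖ ^ 2 +
        ∑ t : Tup 7 n, ‖ρ (c33 (e6'.trans t)) v - v‖ ^ 2) := by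
    rw [← Finset.sum_add_distrib, Finset.mul_sum]
    refine Finset.sum_le_sum fun t _ => ?_
    rw [cyc_id]
    exact energy ρ _ _ v
  have h4 : (∑ t : Tup 7 n, ‖ρ (c3 (e3.trans t)) v - v‖ ^ 2) / Fintype.card (Tup 7 n) ≤
      (2 * (∑ t : Tup 7 n, ‖ρ (c33 (e6.trans t)) v - v‖ ^ 2 +
        ∑ t : Tup 7 n, ‖ρ (c33 (e6'.trans t)) v - v‖ ^ 2)) / Fintype.card (Tup 7 n) := by
    gcongr
  refine h4.trans (le_of_eq ?_)
  rw [mul_div_assoc, add_div, h1, h2]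
  ring

end RC14
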