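import Pool.Agent.H14R2.RC.Defs
import Pool.Agent.H14R2.RC.S.SCHUR
import Pool.Agent.H14R2.RC.S.HSL

namespace RC14
open scoped InnerProductSpace
open Finset

set_option linter.unusedSectionVars false

variable {V : Type*} [NormedAddCommGroup V] [InnerProductSpace ℂ V] [FiniteDimensional ℂ V]

namespace HIGHDaux

variable {G : Type*} [Group G]

theorem P3_apply (ρ : G →* (V ≃ₗᵢ[ℂ] V)) (u : G) (v : V) :
    P3 ρ u v = (1 / 3 : ℂ) • (v + ρ u v + ρ (u ^ 2) v) := by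
  simp [P3]

theorem inner_op (ρ : G →* (V ≃ₗᵢ[ℂ] V)) (u : G) (v w : V) :
    ⟪ρ u v, w⟫_ℂ = ⟪v, ρ u⁻¹ w⟫_ℂ := by
  have h1 : ρ u (ρ u⁻¹ w) = w := by
    rw [map_inv]
    exact (ρ u).apply_symm_apply w
  rw [← (ρ u).inner_map_map v, h1]

theorem P3_symm (ρ : G →* (V ≃ₗᵢ[ℂ] V)) (u : G) (hu : u ^ 3 = 1) (v w : V) :
    ⟪P3 ρ u v, w⟫_ℂ = ⟪v, P3 ρ u w⟫_ℂ := by
  have h1 : u⁻¹ = u ^ 2 := by
    rw [inv_eq_iff_mul_eq_one, ← hu]; group
  have h2 : (u ^ 2)⁻¹ = u := by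
    rw [inv_eq_iff_mul_eq_one, ← hu]; group
  rw [P3_apply, P3_apply, inner_smul_left, inner_smul_right, inner_add_left, inner_add_left,
    inner_add_right, inner_add_right, inner_op, inner_op, h1, h2]
  simp only [map_div₀, map_one, map_ofNat]
  ring

theorem P3_idem (ρ : G →* (V ≃ₗᵢ[ℂ] V)) (u : G) (hu : u ^ 3 = 1) :
    P3 ρ u * P3 ρ u = P3 ρ u := by
  have h1 : op ρ u * op ρ u = op ρ (u ^ 2) := by rw [← op_mul, pow_two]
  have h2 : op ρ u * op ρ (u ^ 2) = 1 := by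
    rw [← op_mul, ← pow_succ', hu, op_one]
  have h3 : op ρ (u ^ 2) * op ρ u = 1 := by
    rw [← op_mul, ← pow_succ, hu, op_one]
  have h4 : op ρ (u ^ 2) * op ρ (u ^ 2) = op ρ u := by
    rw [← op_mul, ← pow_add]
    have : u ^ (2 + 2) = u := by rw [show 2 + 2 = 3 + 1 from rfl, pow_succ, hu, one_mul]
    rw [this]
  have key : (1 + op ρ u + op ρ (u ^ 2)) * (1 + op ρ u + op ρ (u ^ 2)) =
      (3 : ℂ) • (1 + op ρ u + op ρ (u ^ 2)) := by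
    simp only [add_mul, mul_add, one_mul, mul_one, h1, h2, h3, h4]
    module
  unfold P3
  rw [smul_mul_smul_comm, key, smul_smul]
  norm_num

theorem inner_P3 (ρ : G →* (V ≃ₗᵢ[ℂ] V)) (u : G) (hu : u ^ 3 = 1) (v : V) :
    (⟪v, P3 ρ u v⟫_ℂ).re = ‖v‖ ^ 2 - ‖ρ u v - v‖ ^ 2 / 3 := by
  have h1 : u⁻¹ = u ^ 2 := by
    rw [inv_eq_iff_mul_eq_one, ← hu]; group
  have h2 : ⟪v, ρ (u ^ 2) v⟫_ℂ = ⟪ρ u v, v⟫_ℂ := by rw [inner_op, h1]
  have h3 : (⟪v, ρ u v⟫_ℂ).re = (⟪ρ u v, v⟫_ℂ).re := by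
    rw [← inner_conj_symm, Complex.conj_re]
  have h4 := norm_sub_sq (𝕜 := ℂ) (ρ u v) v
  rw [(ρ u).norm_map] at h4
  have h5 : (⟪v, v⟫_ℂ).re = ‖v‖ ^ 2 := by
    rw [inner_self_eq_norm_sq_to_K]
    norm_cast
  rw [P3_apply, inner_smul_right, inner_add_right, inner_add_right, h2]
  have h6 : ((1 / 3 : ℂ) * (⟪v, v⟫_ℂ + ⟪v, ρ u v⟫_ℂ + ⟪ρ u v, v⟫_ℂ)).re =
      (1 / 3) * ((⟪v, v⟫_ℂ).re + (⟪v, ρ u v⟫_ℂ).re + (⟪ρ u v, v⟫_ℂ).re) := by
    rw [show (1 / 3 : ℂ) = ((1 / 3 : ℝ) : ℂ) by push_cast; rfl, Complex.re_ofReal_mul]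
    simp
  rw [h6, h3, h5, h4]
  simp only [RCLike.re_to_complex]
  ring

theorem inner_P3_eq (ρ : G →* (V ≃ₗᵢ[ℂ] V)) (u : G) (hu : u ^ 3 = 1) (v : V) :
    ⟪v, P3 ρ u v⟫_ℂ = ((‖P3 ρ u v‖ ^ 2 : ℝ) : ℂ) := by
  have h1 : P3 ρ u v = P3 ρ u (P3 ρ u v) := by
    conv_lhs => rw [← P3_idem ρ u hu]
    rfl
  rw [h1, ← P3_symm ρ u hu, ← h1, inner_self_eq_norm_sq_to_K]
  norm_cast

theorem hs_P3_mul (ρ : G →* (V ≃ₗᵢ[ℂ] V)) (u : G) (hu : u ^ 3 = 1) (A : Module.End ℂ V) :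
    hs (P3 ρ u * A) = rtr (LinearMap.adjoint A * (P3 ρ u * A)) := by
  have h1 : (P3 ρ u : V →ₗ[ℂ] V).IsSymmetric := fun v w => P3_symm ρ u hu v w
  have h2 : LinearMap.adjoint (P3 ρ u : V →ₗ[ℂ] V) = P3 ρ u := by
    have := (LinearMap.isSymmetric_iff_isSelfAdjoint _).1 h1
    exact this
  unfold hs
  have h3 : LinearMap.adjoint (P3 ρ u * A) = LinearMap.adjoint A * P3 ρ u := by
    rw [Module.End.mul_eq_comp, LinearMap.adjoint_comp, h2]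
    rfl
  rw [h3, mul_assoc, ← mul_assoc (P3 ρ u), P3_idem ρ u hu]

theorem conj_P3 (ρ : G →* (V ≃ₗᵢ[ℂ] V)) (u g : G) :
    op ρ g * P3 ρ u = P3 ρ (g * u * g⁻¹) * op ρ g := by
  have e1 : g * u = g * u * g⁻¹ * g := by group
  have e2 : g * u ^ 2 = (g * u * g⁻¹) ^ 2 * g := by rw [conj_pow]; group
  unfold P3
  rw [mul_smul_comm, smul_mul_assoc]
  congr 1
  simp only [add_mul, mul_add, one_mul, mul_one, ← op_mul, ← e1, ← e2]

theorem c3_conj {n : ℕ} (g : Alt n) (s : Tup 3 n) :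
    g * c3 s * g⁻¹ = c3 (mv (g : Equiv.Perm (Fin n)) s) := by
  rw [mul_inv_eq_iff_eq_mul]
  apply Subtype.ext
  rw [Subgroup.coe_mul, Subgroup.coe_mul]
  show (g : Equiv.Perm (Fin n)) * (Equiv.swap (s 0) (s 1) * Equiv.swap (s 1) (s 2)) =
    (Equiv.swap ((g : Equiv.Perm (Fin n)) (s 0)) ((g : Equiv.Perm (Fin n)) (s 1)) *
      Equiv.swap ((g : Equiv.Perm (Fin n)) (s 1)) ((g : Equiv.Perm (Fin n)) (s 2))) * g
  have h1 := Equiv.mul_swap_eq_swap_mul (g : Equiv.Perm (Fin n)) (s 0) (s 1)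
  have h2 := Equiv.mul_swap_eq_swap_mul (g : Equiv.Perm (Fin n)) (s 1) (s 2)
  rw [← mul_assoc, h1, mul_assoc, h2, mul_assoc]

theorem c33_conj {n : ℕ} (g : Alt n) (s : Tup 6 n) :
    g * c33 s * g⁻¹ = c33 (mv (g : Equiv.Perm (Fin n)) s) := by
  have h1 : g * c33 s * g⁻¹ = (g * c3 ((Fin.castLEEmb (by omega : 3 ≤ 6)).trans s) * g⁻¹) *
      (g * c3 ((Fin.natAddEmb 3).trans s) * g⁻¹) := by
    unfold c33
    group
  rw [h1, c3_conj, c3_conj]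
  rfl

theorem c3_cube {n : ℕ} (s : Tup 3 n) : (c3 s) ^ 3 = 1 := by
  have h01 : s 0 ≠ s 1 := s.injective.ne (by decide)
  have h02 : s 0 ≠ s 2 := s.injective.ne (by decide)
  have h12 : s 1 ≠ s 2 := s.injective.ne (by decide)
  apply Subtype.ext
  rw [Subgroup.coe_pow]
  show (Equiv.swap (s 0) (s 1) * Equiv.swap (s 1) (s 2)) ^ 3 = 1
  have h := Equiv.Perm.isThreeCycle_swap_mul_swap_same h01.symm h12 h02
  have h' := pow_orderOf_eq_one (Equiv.swap (s 1) (s 0) * Equiv.swap (s 1) (s 2))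
  rw [h.orderOf] at h'
  rw [Equiv.swap_comm (s 0) (s 1)]
  exact h'

theorem swap_comm {α : Type*} [DecidableEq α] {a b c d : α} (hac : a ≠ c)
    (had : a ≠ d) (hbc : b ≠ c) (hbd : b ≠ d) :
    Commute (Equiv.swap a b) (Equiv.swap c d) := by
  show Equiv.swap a b * Equiv.swap c d = Equiv.swap c d * Equiv.swap a b
  ext x
  simp only [Equiv.Perm.mul_apply, Equiv.swap_apply_def]
  split_ifs <;> simp_all

theorem c33_cube {n : ℕ} (s : Tup 6 n) : (c33 s) ^ 3 = 1 := by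
  have hs : ∀ i j : Fin 6, i ≠ j → s i ≠ s j := fun i j h => s.injective.ne h
  have h1 : Commute (c3 ((Fin.castLEEmb (by omega : 3 ≤ 6)).trans s))
      (c3 ((Fin.natAddEmb 3).trans s)) := by
    apply Subtype.ext
    rw [Subgroup.coe_mul, Subgroup.coe_mul]
    show Commute (Equiv.swap (s 0) (s 1) * Equiv.swap (s 1) (s 2))
      (Equiv.swap (s 3) (s 4) * Equiv.swap (s 4) (s 5))
    refine Commute.mul_left (Commute.mul_right ?_ ?_) (Commute.mul_right ?_ ?_)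
    · exact swap_comm (hs _ _ (by decide)) (hs _ _ (by decide)) (hs _ _ (by decide))
        (hs _ _ (by decide))
    · exact swap_comm (hs _ _ (by decide)) (hs _ _ (by decide)) (hs _ _ (by decide))
        (hs _ _ (by decide))
    · exact swap_comm (hs _ _ (by decide)) (hs _ _ (by decide)) (hs _ _ (by decide))
        (hs _ _ (by decide))
    · exact swap_comm (hs _ _ (by decide)) (hs _ _ (by decide)) (hs _ _ (by decide))
        (hs _ _ (by decide))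
  unfold c33
  rw [h1.mul_pow, c3_cube, c3_cube, one_mul]

theorem rtr_sum {ι : Type*} (s : Finset ι) (A : ι → Module.End ℂ V) :
    rtr (∑ i ∈ s, A i) = ∑ i ∈ s, rtr (A i) := by
  unfold rtr
  rw [map_sum, Complex.re_sum]

theorem exists_scalar (n : ℕ) (ρ : Alt n →* (V ≃ₗᵢ[ℂ] V)) (hirr : Irr ρ ⊤) (v : V) (hv : v ≠ 0) :
    ∃ β : ℝ, ∑ s : Tup 6 n, P3 ρ (c33 s) = (β : ℂ) • (1 : Module.End ℂ V) ∧ 0 ≤ β ∧
      β * ‖v‖ ^ 2 = ∑ s : Tup 6 n, (‖v‖ ^ 2 - ‖ρ (c33 s) v - v‖ ^ 2 / 3) := by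
  have hB : ∀ g, op ρ g * (∑ s : Tup 6 n, P3 ρ (c33 s)) = (∑ s : Tup 6 n, P3 ρ (c33 s)) * op ρ g := by
    intro g
    rw [Finset.mul_sum, Finset.sum_mul, ← Equiv.sum_comp (mvE (g : Equiv.Perm (Fin n)))
      (fun s : Tup 6 n => P3 ρ (c33 s) * op ρ g)]
    refine Finset.sum_congr rfl fun s _ => ?_
    rw [conj_P3, c33_conj]
    rfl
  have h1 := SCHUR ρ hirr _ hB
  set b : ℂ := LinearMap.trace ℂ V (∑ s : Tup 6 n, P3 ρ (c33 s)) / (Module.finrank ℂ V : ℂ)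
  have h2 : ⟪v, (∑ s : Tup 6 n, P3 ρ (c33 s)) v⟫_ℂ =
      ((∑ s : Tup 6 n, ‖P3 ρ (c33 s) v‖ ^ 2 : ℝ) : ℂ) := by
    rw [LinearMap.sum_apply, inner_sum]
    push_cast
    refine Finset.sum_congr rfl fun s _ => ?_
    rw [inner_P3_eq ρ _ (c33_cube s)]
    push_cast
    rfl
  have h3 : ⟪v, (∑ s : Tup 6 n, P3 ρ (c33 s)) v⟫_ℂ = b * ((‖v‖ ^ 2 : ℝ) : ℂ) := by
    rw [h1]
    simp only [LinearMap.smul_apply, Module.End.one_apply]
    rw [inner_smul_right, inner_self_eq_norm_sq_to_K]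
    norm_cast
  have hv2 : 0 < ‖v‖ ^ 2 := by positivity
  have h4 : b = (((∑ s : Tup 6 n, ‖P3 ρ (c33 s) v‖ ^ 2) / ‖v‖ ^ 2 : ℝ) : ℂ) := by
    rw [h2] at h3
    have h5 : ((‖v‖ ^ 2 : ℝ) : ℂ) ≠ 0 := by exact_mod_cast hv2.ne'
    rw [Complex.ofReal_div, h3]
    field_simp
  refine ⟨(∑ s : Tup 6 n, ‖P3 ρ (c33 s) v‖ ^ 2) / ‖v‖ ^ 2, ?_, by positivity, ?_⟩
  · rw [← h4]; exact h1
  · rw [div_mul_cancel₀ _ hv2.ne']
    refine Finset.sum_congr rfl fun s _ => ?_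
    rw [← inner_P3 ρ _ (c33_cube s), inner_P3_eq ρ _ (c33_cube s), Complex.ofReal_re]

theorem sum_hs (n : ℕ) (ρ : Alt n →* (V ≃ₗᵢ[ℂ] V)) (β : ℝ)
    (hβ : ∑ s : Tup 6 n, P3 ρ (c33 s) = (β : ℂ) • (1 : Module.End ℂ V)) (m : ℕ) :
    ∑ s : Fin m → Tup 6 n, hs ((List.ofFn fun i => P3 ρ (c33 (s i))).prod) =
      Module.finrank ℂ V * β ^ m := by
  induction m with
  | zero => simp [hs_one]
  | succ m ih =>
    rw [← (Fin.consEquiv (fun _ : Fin (m + 1) => Tup 6 n)).sum_comp, Fintype.sum_prod_type,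
      Finset.sum_comm]
    have h1 : ∀ s : Fin m → Tup 6 n, ∑ x : Tup 6 n,
        hs ((List.ofFn fun i => P3 ρ (c33 ((Fin.consEquiv (fun _ : Fin (m + 1) => Tup 6 n))
          (x, s) i))).prod) =
        β * hs ((List.ofFn fun i => P3 ρ (c33 (s i))).prod) := by
      intro s
      simp only [Fin.consEquiv_apply, List.ofFn_succ, Fin.cons_zero, Fin.cons_succ,
        List.prod_cons]
      set A : Module.End ℂ V := (List.ofFn fun i => P3 ρ (c33 (s i))).prod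
      simp only [hs_P3_mul ρ _ (c33_cube _) A]
      rw [← rtr_sum, ← Finset.mul_sum, ← Finset.sum_mul, hβ]
      unfold hs rtr
      rw [smul_mul_assoc, one_mul, mul_smul_comm, map_smul, smul_eq_mul, Complex.re_ofReal_mul]
    simp only [h1]
    rw [← Finset.mul_sum, ih]
    ring

end HIGHDaux

open HIGHDaux in
/-- HIGH d: the product of `m` independent random projections -/
theorem HIGHD (n : ℕ) (ρ : Alt n →* (V ≃ₗᵢ[ℂ] V)) (hirr : Irr ρ ⊤) (c : ℝ) (hn : 6 ≤ n) (v : V)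
    (hv : v ≠ 0) (hc : c * ‖v‖ ^ 2 * Fintype.card (Tup 6 n) ≤
      ∑ s : Tup 6 n, ‖ρ (c33 s) v - v‖ ^ 2) (m : ℕ) :
    ∑ s : Fin m → Tup 6 n, hs ((List.ofFn fun i => P3 ρ (c33 (s i))).prod) ≤
      Module.finrank ℂ V * (1 - c / 3) ^ m * (Fintype.card (Tup 6 n) : ℝ) ^ m := by
  obtain ⟨β, h1, h2, h3⟩ := exists_scalar n ρ hirr v hv
  rw [sum_hs n ρ β h1 m, mul_assoc, ← mul_pow]
  have hv2 : 0 < ‖v‖ ^ 2 := by positivity
  have h4 : β ≤ (1 - c / 3) * (Fintype.card (Tup 6 n) : ℝ) := by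
    rw [Finset.sum_sub_distrib, Finset.sum_const, Finset.card_univ, nsmul_eq_mul,
      ← Finset.sum_div] at h3
    have h5 : β * ‖v‖ ^ 2 ≤ ((1 - c / 3) * (Fintype.card (Tup 6 n) : ℝ)) * ‖v‖ ^ 2 := by
      rw [h3]
      linarith
    exact le_of_mul_le_mul_right h5 hv2
  gcongr

end RC14
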